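import Mathlib

/-!
# Induced saturation of disjoint unions of chains is at most linear

For all `m ≥ 1` and all chain lengths `l 0, …, l (m - 1) ≥ 1` there is a constant `C` such that for all
`n ≥ 1` some family of at most `C n` subsets of an `n`-set is induced saturated for the disjoint union
of the chains.

Proof. Let `k` be the largest length and `r` the number of chains of length `k`. Split the ground set
into a bounded part `K` and a linearly ordered rest `B`. The starting family consists of the sets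
`σ ∪ {y}` (`σ ⊆ K`, `1 ≤ |σ| ≤ k - 1`, `y ∈ B`), the sets `Z ∪ B` (`Z ⊆ K`, `|Z| ≤ k - 2`) and of `r - 1`
chains `μ c ∪ {b ≤ x}` (`x ∈ B`). The first two kinds contain no `k`-chain, hence there is no copy.
If `G ∩ B` is not an initial segment, then there are `x < y` with `x ∉ G`, `y ∈ G`; the set `G` lies in a
`k`-chain of the first two kinds of sets, which use `y`, and the other chains of the copy are found
among the sets that contain `x`. So all but `O(n)` sets `G` are blocked.
-/

set_option autoImplicit false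

open Finset

namespace Pool.Agent.Results.MP_2b57cc_co.LinearBound

/-- the family `F` contains an induced copy of the disjoint union of chains with `l j` elements,
`j < m` -/
def HasCopy {n m : ℕ} (l : Fin m → ℕ) (F : Finset (Finset (Fin n))) : Prop :=
  ∃ b : (j : Fin m) → Fin (l j) → Finset (Fin n), (∀ j a, b j a ∈ F) ∧
    ∀ j a j' a', b j a ⊆ b j' a' ↔ j = j' ∧ (a : ℕ) ≤ (a' : ℕ)

/-- `F` is induced saturated for the disjoint union of chains with `l j` elements -/
def Saturated {n m : ℕ} (l : Fin m → ℕ) (F : Finset (Finset (Fin n))) : Prop :=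
  ¬ HasCopy l F ∧ ∀ G, G ∉ F → HasCopy l (insert G F)

section general

variable {X : Type} [PartialOrder X]

/-- copies in a general poset -/
def Cp {m : ℕ} (l : Fin m → ℕ) (F : Finset X) : Prop :=
  ∃ b : (j : Fin m) → Fin (l j) → X, (∀ j a, b j a ∈ F) ∧
    ∀ j a j' a', b j a ≤ b j' a' ↔ j = j' ∧ (a : ℕ) ≤ (a' : ℕ)

theorem Cp.mono {m : ℕ} {l : Fin m → ℕ} {F F' : Finset X} (h : F ⊆ F') (hF : Cp l F) : Cp l F' := by
  obtain ⟨b, h1, h2⟩ := hF
  exact ⟨b, fun j a => h (h1 j a), h2⟩

/-- the greedy extension -/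
theorem greedy [Fintype X] [DecidableEq X] {m : ℕ} (l : Fin m → ℕ) (F E : Finset X) (hF : ¬ Cp l F)
    (hE : ∀ G, G ∉ F → G ∉ E → Cp l (insert G F)) :
    ∃ F' : Finset X, F' ⊆ F ∪ E ∧ ¬ Cp l F' ∧ ∀ G, G ∉ F' → Cp l (insert G F') := by
  classical
  obtain ⟨M, hFM, hM⟩ := (Set.toFinite {A : Finset X | ¬ Cp l A}).exists_le_maximal
    (show F ∈ {A : Finset X | ¬ Cp l A} from hF)
  refine ⟨M, ?_, hM.1, ?_⟩
  · intro G hG
    by_contra hcon
    rw [mem_union, not_or] at hcon
    apply hM.1
    refine (hE G hcon.1 hcon.2).mono ?_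
    intro A hA
    rw [mem_insert] at hA
    rcases hA with rfl | hA
    · exact hG
    · exact hFM hA
  · intro G hG
    by_contra hcon
    have := hM.2 (show insert G M ∈ {A : Finset X | ¬ Cp l A} from hcon) (subset_insert G M)
    exact hG (this (mem_insert_self G M))

end general

/-- strict monotonicity from consecutive steps -/
theorem lt_of_steps {X : Type} [PartialOrder X] (u : ℕ → X) (k : ℕ)
    (h : ∀ i, i + 1 < k → u i < u (i + 1)) : ∀ i j, i < j → j < k → u i < u j := by
  intro i j hij
  induction j with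
  | zero => omega
  | succ j ih =>
    intro hj
    rcases Nat.lt_or_ge i j with h1 | h1
    · exact (ih h1 (by omega)).trans (h j hj)
    · have : i = j := by omega
      subst this
      exact h i hj

theorem le_iff_of_steps {X : Type} [PartialOrder X] (u : ℕ → X) (k : ℕ)
    (h : ∀ i, i + 1 < k → u i < u (i + 1)) (i j : ℕ) (hi : i < k) (hj : j < k) :
    u i ≤ u j ↔ i ≤ j := by
  constructor
  · intro hle
    by_contra hcon
    exact absurd (lt_of_steps u k h j i (by omega) hi) (not_lt_of_ge hle)
  · intro hle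
    rcases Nat.lt_or_ge i j with h1 | h1
    · exact (lt_of_steps u k h i j h1 hj).le
    · have : i = j := by omega
      rw [this]

/-- a full flag through `t` -/
theorem flag {K : Type} [Fintype K] [DecidableEq K] (t : Finset K) :
    ∃ W : ℕ → Finset K, (∀ j, j ≤ Fintype.card K → (W j).card = j) ∧ (∀ i j, i ≤ j → W i ⊆ W j) ∧
      W t.card = t := by
  classical
  have hnd : (t.toList ++ tᶜ.toList).Nodup := by
    rw [List.nodup_append]
    refine ⟨t.nodup_toList, tᶜ.nodup_toList, ?_⟩
    intro a ha b hb hab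
    rw [mem_toList] at ha hb
    rw [mem_compl] at hb
    exact hb (hab ▸ ha)
  refine ⟨fun j => ((t.toList ++ tᶜ.toList).take j).toFinset, ?_, ?_, ?_⟩
  · intro j hj
    rw [List.toFinset_card_of_nodup (hnd.sublist (List.take_sublist _ _)), List.length_take,
      List.length_append, length_toList, length_toList, card_compl]
    have := card_le_univ t
    omega
  · intro i j hij a ha
    rw [List.mem_toFinset] at ha ⊢
    exact List.take_subset_take_left _ hij ha
  · have : (t.toList ++ tᶜ.toList).take t.card = t.toList := by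
      rw [← length_toList t, List.take_left]
    show ((t.toList ++ tᶜ.toList).take t.card).toFinset = t
    rw [this, toList_toFinset]

section construction

variable {m : ℕ} (l : Fin m → ℕ) (k : ℕ) (c₀ : Fin m) (N : ℕ)

/-- the bounded part of the ground set -/
abbrev KK (m k : ℕ) : Type := Fin k × Fin m × Fin k

/-- pairs: trace on `K`, trace on `B` -/
abbrev XX (m k N : ℕ) : Type := Finset (KK m k) × Finset (Fin N)

/-- all the elements of `K` with middle coordinate `c` -/
def mu (c : Fin m) : Finset (KK m k) := univ.filter (fun z => z.2.1 = c)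

/-- small sets -/
def IsS (A : XX m k N) : Prop := 1 ≤ A.1.card ∧ A.1.card + 1 ≤ k ∧ A.2.card = 1

/-- large sets -/
def IsT (A : XX m k N) : Prop := A.2 = univ ∧ A.1.card + 2 ≤ k

/-- the `r - 1` long chains -/
def IsM (A : XX m k N) : Prop := ∃ c, c ≠ c₀ ∧ l c = k ∧ A.1 = mu k c ∧ ∃ x, A.2 = Iic x

open Classical in
/-- the starting family -/
noncomputable def F0 : Finset (XX m k N) :=
  univ.filter (fun A => IsS k N A ∨ IsT k N A ∨ IsM l k c₀ N A)

open Classical in
/-- the sets which are not blocked by the starting family -/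
noncomputable def E0 : Finset (XX m k N) :=
  univ.filter (fun A => A.2 = ∅ ∨ ∃ x, A.2 = Iic x)

theorem mem_F0 (A : XX m k N) : A ∈ F0 l k c₀ N ↔ (IsS k N A ∨ IsT k N A ∨ IsM l k c₀ N A) := by
  unfold F0
  simp

theorem mem_E0 (A : XX m k N) : A ∈ E0 k N ↔ (A.2 = ∅ ∨ ∃ x, A.2 = Iic x) := by
  unfold E0
  simp

/-- the rank of the small and large sets -/
def rk (A : XX m k N) : ℕ := A.1.card + (if A.2 = univ then 1 else 0)

theorem univ_card_ne (hN : 2 ≤ N) (s : Finset (Fin N)) (hs : s.card = 1) : s ≠ univ := by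
  intro h
  rw [h, card_univ, Fintype.card_fin] at hs
  omega

theorem rk_bounds (hN : 2 ≤ N) (A : XX m k N) (h : IsS k N A ∨ IsT k N A) :
    rk k N A + 1 ≤ k ∧ (1 ≤ rk k N A) := by
  unfold rk
  rcases h with ⟨h1, h2, h3⟩ | ⟨h1, h2⟩
  · rw [if_neg (univ_card_ne N hN _ h3)]
    omega
  · rw [if_pos h1]
    omega

theorem rk_lt (hN : 2 ≤ N) (A A' : XX m k N) (h : IsS k N A ∨ IsT k N A)
    (h' : IsS k N A' ∨ IsT k N A') (hlt : A < A') : rk k N A < rk k N A' := by
  have hle := hlt.le
  have h1 : A.1 ⊆ A'.1 := hle.1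
  have h2 : A.2 ⊆ A'.2 := hle.2
  have hne : A ≠ A' := hlt.ne
  have hc := card_le_card h1
  unfold rk
  rcases h with ⟨a1, a2, a3⟩ | ⟨a1, a2⟩
  · rcases h' with ⟨b1, b2, b3⟩ | ⟨b1, b2⟩
    · rw [if_neg (univ_card_ne N hN _ a3), if_neg (univ_card_ne N hN _ b3)]
      have e2 : A.2 = A'.2 := eq_of_subset_of_card_le h2 (by omega)
      have e1 : A.1 ≠ A'.1 := fun e => hne (Prod.ext e e2)
      have := card_lt_card (h1.ssubset_of_ne e1)
      omega
    · rw [if_neg (univ_card_ne N hN _ a3), if_pos b1]
      omega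
  · have e2 : A'.2 = univ := by
      rw [a1] at h2
      exact univ_subset_iff.1 h2
    rw [if_pos a1, if_pos e2]
    have e1 : A.1 ≠ A'.1 := fun e => hne (Prod.ext e (a1.trans e2.symm))
    have := card_lt_card (h1.ssubset_of_ne e1)
    omega

/-- the starting family contains no copy -/
theorem free (hN : 2 ≤ N) (hk : 1 ≤ k) (hc₀ : l c₀ = k) : ¬ Cp l (F0 l k c₀ N) := by
  classical
  rintro ⟨b, hb1, hb2⟩
  -- every long chain contains a member of one of the long chains of the family
  have key : ∀ c, l c = k → ∃ a : Fin (l c), IsM l k c₀ N (b c a) := by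
    intro c hc
    by_contra hcon
    push Not at hcon
    have hST : ∀ a : Fin (l c), IsS k N (b c a) ∨ IsT k N (b c a) := by
      intro a
      rcases (mem_F0 l k c₀ N _).1 (hb1 c a) with h | h | h
      · exact Or.inl h
      · exact Or.inr h
      · exact absurd h (hcon a)
    have hr : ∀ i : ℕ, ∀ hi : i < l c, i + 1 ≤ rk k N (b c ⟨i, hi⟩) := by
      intro i
      induction i with
      | zero => intro hi; exact (rk_bounds k N hN _ (hST _)).2
      | succ i ih =>
        intro hi
        have h1 := ih (by omega)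
        have h2 : b c ⟨i, by omega⟩ < b c ⟨i + 1, hi⟩ := by
          refine lt_of_le_not_ge ((hb2 c _ c _).2 ⟨rfl, by simp⟩) ?_
          intro h
          have := ((hb2 c _ c _).1 h).2
          simp at this
        have := rk_lt k N hN _ _ (hST _) (hST _) h2
        omega
    have h1 := hr (k - 1) (by omega)
    have h2 := (rk_bounds k N hN _ (hST ⟨k - 1, by omega⟩)).1
    omega
  have key' : ∀ c, ∃ d, l c = k → d ≠ c₀ ∧ l d = k ∧
      ∃ a : Fin (l c), (b c a).1 = mu k d ∧ ∃ x, (b c a).2 = Iic x := by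
    intro c
    by_cases hc : l c = k
    · obtain ⟨a, d, h1, h2, h3, h4⟩ := key c hc
      exact ⟨d, fun _ => ⟨h1, h2, a, h3, h4⟩⟩
    · exact ⟨c, fun h => absurd h hc⟩
  choose g hg using key'
  obtain ⟨c, hc, c', hc', hne, hgg⟩ := exists_ne_map_eq_of_card_lt_of_maps_to
    (s := univ.filter (fun c => l c = k)) (t := (univ.filter (fun c => l c = k)).erase c₀) (f := g)
    (card_erase_lt_of_mem (by simpa using hc₀)) (by
      intro c hc
      rw [mem_coe, mem_filter] at hc
      rw [mem_coe, mem_erase, mem_filter]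
      exact ⟨(hg c hc.2).1, mem_univ _, (hg c hc.2).2.1⟩)
  rw [mem_filter] at hc hc'
  obtain ⟨-, -, a, ha, x, hx⟩ := hg c hc.2
  obtain ⟨-, -, a', ha', x', hx'⟩ := hg c' hc'.2
  have e1 : (b c a).1 = (b c' a').1 := by
    rw [ha, ha', hgg]
  rcases le_total x x' with h | h
  · have : b c a ≤ b c' a' := by
      refine ⟨e1.le, ?_⟩
      rw [hx, hx']
      exact Iic_subset_Iic.2 h
    exact hne ((hb2 _ _ _ _).1 this).1
  · have : b c' a' ≤ b c a := by
      refine ⟨e1.symm.le, ?_⟩
      rw [hx, hx']
      exact Iic_subset_Iic.2 h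
    exact hne ((hb2 _ _ _ _).1 this).1.symm

/-- the sets whose trace is not an initial segment are blocked -/
theorem blocked (hk : 1 ≤ k) (hc₀ : l c₀ = k) (hl : ∀ c, l c ≤ k) (G : XX m k N)
    (hG : G ∉ F0 l k c₀ N) (hG' : G ∉ E0 k N) : Cp l (insert G (F0 l k c₀ N)) := by
  classical
  rw [mem_E0, not_or] at hG'
  obtain ⟨hne, hI⟩ := hG'
  push Not at hI
  obtain ⟨y, hy⟩ : ∃ y, y = G.2.max' (nonempty_iff_ne_empty.2 hne) := ⟨_, rfl⟩
  have hyG : y ∈ G.2 := hy ▸ max'_mem _ _
  have hsub : G.2 ⊆ Iic y := fun z hz => mem_Iic.2 (hy ▸ le_max' _ _ hz)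
  obtain ⟨x, hx1, hx2⟩ : ∃ x, x ∈ Iic y ∧ x ∉ G.2 := by
    by_contra hcon
    push Not at hcon
    exact hI y (Subset.antisymm hsub hcon)
  have hxy : x < y := lt_of_le_of_ne (mem_Iic.1 hx1) (fun e => hx2 (e ▸ hyG))
  obtain ⟨W, hW1, hW2, hW3⟩ := flag G.1
  have hm : 1 ≤ m := by
    have := c₀.2
    omega
  have hKK : Fintype.card (KK m k) = k * (m * k) := by simp [KK]
  have hkK : k ≤ Fintype.card (KK m k) := by
    rw [hKK]
    calc k = k * (1 * 1) := by ring
      _ ≤ k * (m * k) := Nat.mul_le_mul_left _ (Nat.mul_le_mul hm hk)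
  -- the free layer
  obtain ⟨v, hv⟩ : ∃ v : Fin k, ∀ c a, (v, c, a) ∉ W (k - 2) := by
    by_contra hcon
    push Not at hcon
    have h1 : (univ : Finset (Fin k)) ⊆ (W (k - 2)).image Prod.fst := by
      intro v _
      obtain ⟨c, a, h⟩ := hcon v
      exact mem_image.2 ⟨_, h, rfl⟩
    have h2 := (card_le_card h1).trans card_image_le
    rw [card_univ, Fintype.card_fin, hW1 (k - 2) (by omega)] at h2
    omega
  obtain ⟨p, hp⟩ : ∃ p, p = min G.1.card (k - 1) := ⟨_, rfl⟩
  -- the chain through `G`
  let u : ℕ → XX m k N := fun i =>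
    if i < p then (W (i + 1), {y}) else if i = p then G else (W (i - 1), univ)
  -- the other chains
  let T : Fin m → ℕ → Finset (KK m k) := fun c j => univ.filter (fun z => z.1 = v ∧ z.2.1 = c ∧ (z.2.2 : ℕ) < j)
  let w : Fin m → ℕ → XX m k N := fun c i =>
    if i + 1 < k then (T c (i + 1), {x}) else (mu k c, Iic x)
  have hTcard : ∀ c j, j ≤ k → (T c j).card = j := by
    intro c j hj
    have : T c j = (univ.filter (fun z : Fin k => (z : ℕ) < j)).image (fun z => (v, c, z)) := by
      ext ⟨z1, z2, z3⟩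
      simp only [T, mem_filter, mem_univ, true_and, mem_image, Prod.mk.injEq]
      constructor
      · rintro ⟨h1, h2, h3⟩
        exact ⟨z3, h3, h1.symm, h2.symm, rfl⟩
      · rintro ⟨a, h1, h2, h3, h4⟩
        exact ⟨h2.symm, h3.symm, h4 ▸ h1⟩
    rw [this, card_image_of_injective]
    · have h2 : (univ.filter (fun z : Fin k => (z : ℕ) < j)) =
        (univ : Finset (Fin j)).map ⟨Fin.castLE hj, Fin.castLE_injective hj⟩ := by
        ext z
        simp only [mem_filter, mem_univ, true_and, mem_map, Function.Embedding.coeFn_mk]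
        constructor
        · intro h
          exact ⟨⟨z, h⟩, Fin.ext rfl⟩
        · rintro ⟨a, rfl⟩
          exact a.2
      rw [h2, card_map, card_univ, Fintype.card_fin]
    · intro a b hab
      simpa using hab
  have hTmono : ∀ c i j, i ≤ j → T c i ⊆ T c j := by
    intro c i j hij z hz
    simp only [T, mem_filter, mem_univ, true_and] at hz ⊢
    exact ⟨hz.1, hz.2.1, by omega⟩
  have hTmu : ∀ c j, T c j ⊆ mu k c := by
    intro c j z hz
    simp only [T, mu, mem_filter, mem_univ, true_and] at hz ⊢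
    exact hz.2.1
  -- members of the family
  have hS : ∀ (s : Finset (KK m k)) (z : Fin N), 1 ≤ s.card → s.card + 1 ≤ k →
      ((s, {z}) : XX m k N) ∈ F0 l k c₀ N := by
    intro s z h1 h2
    rw [mem_F0]
    exact Or.inl ⟨h1, h2, by simp⟩
  have hTT : ∀ (s : Finset (KK m k)), s.card + 2 ≤ k → ((s, univ) : XX m k N) ∈ F0 l k c₀ N := by
    intro s h1
    rw [mem_F0]
    exact Or.inr (Or.inl ⟨rfl, h1⟩)
  have humem : ∀ i, i < k → u i ∈ insert G (F0 l k c₀ N) := by
    intro i hi
    simp only [u]
    split_ifs with h1 h2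
    · apply mem_insert_of_mem
      have : (W (i + 1)).card = i + 1 := hW1 _ (by omega)
      apply hS
      · omega
      · rw [this]; omega
    · exact mem_insert_self _ _
    · apply mem_insert_of_mem
      have : (W (i - 1)).card = i - 1 := hW1 _ (by omega)
      apply hTT
      rw [this]; omega
  have hwmem : ∀ c, c ≠ c₀ → ∀ i, i < l c → w c i ∈ insert G (F0 l k c₀ N) := by
    intro c hc i hi
    have h3 := hl c
    simp only [w]
    split_ifs with h1
    · apply mem_insert_of_mem
      have : (T c (i + 1)).card = i + 1 := hTcard _ _ (by omega)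
      apply hS
      · omega
      · rw [this]; omega
    · apply mem_insert_of_mem
      rw [mem_F0]
      exact Or.inr (Or.inr ⟨c, hc, by omega, rfl, x, rfl⟩)
  -- monotonicity
  have hustep : ∀ i, i + 1 < k → u i < u (i + 1) := by
    intro i hi
    rcases Nat.lt_trichotomy (i + 1) p with h | h | h
    · simp only [u]
      rw [if_pos (by omega), if_pos h]
      refine lt_of_le_of_ne ⟨hW2 _ _ (by omega), le_refl _⟩ ?_
      intro e
      have e1 := congrArg (fun A : XX m k N => A.1.card) e
      simp only at e1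
      rw [hW1 _ (by omega), hW1 _ (by omega)] at e1
      omega
    · simp only [u]
      rw [if_pos (by omega), if_neg (by omega), if_pos h]
      refine lt_of_le_of_ne ⟨?_, ?_⟩ ?_
      · show W (i + 1) ⊆ G.1
        rw [← hW3]
        exact hW2 _ _ (by omega)
      · show ({y} : Finset (Fin N)) ⊆ G.2
        exact singleton_subset_iff.2 hyG
      · intro e
        apply hG
        rw [← e]
        have : (W (i + 1)).card = i + 1 := hW1 _ (by omega)
        apply hS
        · omega
        · rw [this]; omega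
    · rcases Nat.eq_or_lt_of_le (Nat.lt_succ_iff.1 h) with h' | h'
      · -- i = p
        simp only [u]
        rw [if_neg (by omega), if_pos h'.symm, if_neg (by omega), if_neg (by omega)]
        have hpc : p = G.1.card := by omega
        refine lt_of_le_of_ne ⟨?_, subset_univ _⟩ ?_
        · show G.1 ⊆ W (i + 1 - 1)
          rw [Nat.add_sub_cancel, ← h', hpc, hW3]
        · intro e
          apply hG
          rw [e]
          apply hTT
          rw [hW1 _ (by omega)]
          omega
      · simp only [u]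
        rw [if_neg (by omega), if_neg (by omega), if_neg (by omega), if_neg (by omega)]
        refine lt_of_le_of_ne ⟨hW2 _ _ (by omega), le_refl _⟩ ?_
        intro e
        have e1 := congrArg (fun A : XX m k N => A.1.card) e
        simp only at e1
        rw [hW1 _ (by omega), hW1 _ (by omega)] at e1
        omega
  have hwstep : ∀ c i, i + 1 < k → w c i < w c (i + 1) := by
    intro c i hi
    simp only [w]
    rw [if_pos hi]
    split_ifs with h1
    · refine lt_of_le_of_ne ⟨hTmono _ _ _ (by omega), le_refl _⟩ ?_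
      intro e
      have e1 := congrArg (fun A : XX m k N => A.1.card) e
      simp only at e1
      rw [hTcard _ _ (by omega), hTcard _ _ (by omega)] at e1
      omega
    · refine lt_of_le_of_ne ⟨hTmu _ _, ?_⟩ ?_
      · show ({x} : Finset (Fin N)) ⊆ Iic x
        exact singleton_subset_iff.2 (mem_Iic.2 le_rfl)
      · intro e
        have e1 := congrArg (fun A : XX m k N => A.1) e
        simp only at e1
        have h2 : T c k ⊆ T c (i + 1) := by
          rw [e1]
          exact hTmu c k
        have h3 := card_le_card h2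
        rw [hTcard _ _ le_rfl, hTcard _ _ (by omega)] at h3
        omega
  -- separation
  have hwx : ∀ c i, (v, c, (⟨0, hk⟩ : Fin k)) ∈ (w c i).1 ∧ (w c i).1 ⊆ mu k c ∧ x ∈ (w c i).2 ∧ y ∉ (w c i).2 := by
    intro c i
    simp only [w]
    split_ifs with h1
    · refine ⟨?_, hTmu _ _, by simp, ?_⟩
      · simp [T]
      · simp only [mem_singleton]
        exact fun e => hxy.ne e.symm
    · refine ⟨?_, Subset.refl _, by simp, ?_⟩
      · simp [mu]
      · simp only [mem_Iic]
        exact not_le_of_gt hxy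
  have hux : ∀ i, i < k → y ∈ (u i).2 ∧ (x ∈ (u i).2 → (u i).1 ⊆ W (k - 2)) := by
    intro i hi
    simp only [u]
    split_ifs with h1 h2
    · refine ⟨by simp, ?_⟩
      intro h
      simp only [mem_singleton] at h
      exact absurd h hxy.ne
    · exact ⟨hyG, fun h => absurd h hx2⟩
    · exact ⟨mem_univ _, fun _ => hW2 _ _ (by omega)⟩
  refine ⟨fun c i => if c = c₀ then u i else w c i, ?_, ?_⟩
  · intro c i
    show (if c = c₀ then u i else w c i) ∈ _
    split_ifs with h
    · exact humem _ (lt_of_lt_of_le i.2 (hl c))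
    · exact hwmem c h _ i.2
  · intro c i c' i'
    have hi : (i : ℕ) < k := lt_of_lt_of_le i.2 (hl c)
    have hi' : (i' : ℕ) < k := lt_of_lt_of_le i'.2 (hl c')
    show (if c = c₀ then u i else w c i) ≤ (if c' = c₀ then u i' else w c' i') ↔ _
    by_cases h : c = c₀
    · by_cases h' : c' = c₀
      · rw [if_pos h, if_pos h', le_iff_of_steps u k hustep _ _ hi hi']
        exact ⟨fun e => ⟨h.trans h'.symm, e⟩, fun e => e.2⟩
      · rw [if_pos h, if_neg h']
        constructor
        · intro hle
          exact absurd (hle.2 (hux i hi).1) (hwx c' i').2.2.2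
        · rintro ⟨e, -⟩
          exact absurd (e.symm.trans h) h'
    · by_cases h' : c' = c₀
      · rw [if_neg h, if_pos h']
        constructor
        · intro hle
          have h1 := hle.2 (hwx c i).2.2.1
          have h2 := (hux i' hi').2 h1 (hle.1 (hwx c i).1)
          exact absurd h2 (hv c _)
        · rintro ⟨e, -⟩
          exact absurd (e.trans h') h
      · rw [if_neg h, if_neg h']
        by_cases hcc : c = c'
        · subst hcc
          rw [le_iff_of_steps (w c) k (hwstep c) _ _ hi hi']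
          exact ⟨fun e => ⟨rfl, e⟩, fun e => e.2⟩
        · constructor
          · intro hle
            have h1 := (hwx c' i').2.1 (hle.1 (hwx c i).1)
            simp only [mu, mem_filter, mem_univ, true_and] at h1
            exact absurd h1 hcc
          · rintro ⟨e, -⟩
            exact absurd e hcc

/-- the union of the starting family and of the exceptional sets is small -/
theorem small : (F0 l k c₀ N ∪ E0 k N).card ≤ 2 ^ (Fintype.card (KK m k)) * (2 * N + 2) := by
  classical
  have h : F0 l k c₀ N ∪ E0 k N ⊆ (univ : Finset (Finset (KK m k))) ×ˢ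
      ((univ.image (fun z : Fin N => ({z} : Finset (Fin N))) ∪ univ.image (fun z : Fin N => Iic z)) ∪
        {univ, ∅}) := by
    intro A hA
    rw [mem_product]
    refine ⟨mem_univ _, ?_⟩
    rw [mem_union, mem_F0, mem_E0] at hA
    rw [mem_union, mem_union]
    rcases hA with (⟨-, -, h⟩ | ⟨h, -⟩ | ⟨-, -, -, -, x, h⟩) | h | ⟨x, h⟩
    · obtain ⟨z, hz⟩ := card_eq_one.1 h
      exact Or.inl (Or.inl (mem_image.2 ⟨z, mem_univ _, hz.symm⟩))
    · exact Or.inr (by rw [h]; simp)
    · exact Or.inl (Or.inr (mem_image.2 ⟨x, mem_univ _, h.symm⟩))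
    · exact Or.inr (by rw [h]; simp)
    · exact Or.inl (Or.inr (mem_image.2 ⟨x, mem_univ _, h.symm⟩))
  refine (card_le_card h).trans ?_
  rw [card_product, card_univ, Fintype.card_finset]
  apply Nat.mul_le_mul_left
  refine (card_union_le _ _).trans ?_
  have h1 : (univ.image (fun z : Fin N => ({z} : Finset (Fin N))) ∪
      univ.image (fun z : Fin N => Iic z)).card ≤ N + N := by
    refine (card_union_le _ _).trans (Nat.add_le_add ?_ ?_)
    · refine card_image_le.trans ?_
      rw [card_univ, Fintype.card_fin]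
    · refine card_image_le.trans ?_
      rw [card_univ, Fintype.card_fin]
  have h2 : ({univ, ∅} : Finset (Finset (Fin N))).card ≤ 2 := card_le_two
  omega

end construction

/-- transfer along an isomorphism of posets -/
theorem transfer {n m : ℕ} {X : Type} [PartialOrder X] [DecidableEq X] (l : Fin m → ℕ)
    (e : X ≃o Finset (Fin n)) (F : Finset X) (h1 : ¬ Cp l F) (h2 : ∀ G, G ∉ F → Cp l (insert G F)) :
    Saturated l (F.map e.toEquiv.toEmbedding) := by
  classical
  constructor
  · rintro ⟨b, hb1, hb2⟩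
    apply h1
    refine ⟨fun j a => e.symm (b j a), ?_, ?_⟩
    · intro j a
      obtain ⟨A, hA, hA'⟩ := mem_map.1 (hb1 j a)
      have : e.symm (b j a) = A := by
        rw [← hA']
        exact e.symm_apply_apply A
      show e.symm (b j a) ∈ F
      rw [this]
      exact hA
    · intro j a j' a'
      rw [e.symm.le_iff_le]
      exact hb2 j a j' a'
  · intro G hG
    have hG' : e.symm G ∉ F := by
      intro h
      apply hG
      exact mem_map.2 ⟨_, h, e.apply_symm_apply G⟩
    obtain ⟨b, hb1, hb2⟩ := h2 _ hG'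
    refine ⟨fun j a => e (b j a), ?_, ?_⟩
    · intro j a
      show e (b j a) ∈ _
      rcases mem_insert.1 (hb1 j a) with h | h
      · rw [h, e.apply_symm_apply]
        exact mem_insert_self _ _
      · exact mem_insert_of_mem (mem_map.2 ⟨_, h, rfl⟩)
    · intro j a j' a'
      show e (b j a) ≤ e (b j' a') ↔ _
      rw [e.le_iff_le]
      exact hb2 j a j' a'

/-- **The induced saturation number of every disjoint union of chains is at most linear.** For all
`m ≥ 1` and all lengths `l j ≥ 1` (`j < m`) there is a constant `C` such that for every `n ≥ 1` there is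
a family of at most `C n` subsets of an `n`-element set that is induced saturated for the disjoint
union of chains with `l j` elements. -/
theorem result (m : ℕ) (hm : 1 ≤ m) (l : Fin m → ℕ) (hl : ∀ j, 1 ≤ l j) :
    ∃ C : ℕ, ∀ n : ℕ, 1 ≤ n → ∃ F : Finset (Finset (Fin n)), Saturated l F ∧ F.card ≤ C * n := by
  classical
  obtain ⟨c₀, -, hc₀⟩ := exists_max_image (univ : Finset (Fin m)) l ⟨⟨0, hm⟩, mem_univ _⟩
  obtain ⟨k, hk⟩ : ∃ k, k = l c₀ := ⟨_, rfl⟩
  have hlk : ∀ c, l c ≤ k := fun c => hk ▸ hc₀ c (mem_univ _)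
  have hk1 : 1 ≤ k := hk ▸ hl c₀
  obtain ⟨κ, hκ⟩ : ∃ κ, κ = Fintype.card (KK m k) := ⟨_, rfl⟩
  have hκ1 : 1 ≤ κ := by
    rw [hκ]
    exact Fintype.card_pos_iff.2 ⟨(⟨0, hk1⟩, ⟨0, hm⟩, ⟨0, hk1⟩)⟩
  refine ⟨2 ^ (κ + 1), fun n hn => ?_⟩
  rcases Nat.lt_or_ge n (κ + 2) with hsmall | hlarge
  · -- small ground sets
    have h0 : ¬ Cp l (∅ : Finset (Finset (Fin n))) := by
      rintro ⟨b, hb, -⟩
      exact absurd (hb ⟨0, hm⟩ ⟨0, hl _⟩) (notMem_empty _)
    obtain ⟨F, hF1, hF2, hF3⟩ := greedy l (∅ : Finset (Finset (Fin n))) univ h0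
      (fun G _ h => absurd (mem_univ G) h)
    refine ⟨F, ⟨hF2, hF3⟩, ?_⟩
    calc F.card ≤ (univ : Finset (Finset (Fin n))).card := card_le_univ _
      _ = 2 ^ n := by rw [card_univ, Fintype.card_finset, Fintype.card_fin]
      _ ≤ 2 ^ (κ + 1) := Nat.pow_le_pow_right (by norm_num) (by omega)
      _ ≤ 2 ^ (κ + 1) * n := Nat.le_mul_of_pos_right _ hn
  · obtain ⟨N, hN⟩ : ∃ N, n = κ + N := ⟨n - κ, by omega⟩
    have hN2 : 2 ≤ N := by omega
    obtain ⟨F, hF1, hF2, hF3⟩ := greedy l (F0 l k c₀ N) (E0 k N) (free l k c₀ N hN2 hk1 hk.symm)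
      (blocked l k c₀ N hk1 hk.symm hlk)
    have hcard : Fintype.card (KK m k ⊕ Fin N) = Fintype.card (Fin n) := by
      rw [Fintype.card_sum, Fintype.card_fin, Fintype.card_fin, ← hκ, hN]
    let e0 : KK m k ⊕ Fin N ≃ Fin n := Fintype.equivOfCardEq hcard
    let e1 : Finset (KK m k ⊕ Fin N) ≃o Finset (Fin n) :=
      { e0.finsetCongr with
        map_rel_iff' := by
          intro a b
          show a.map e0.toEmbedding ⊆ b.map e0.toEmbedding ↔ a ⊆ b
          exact map_subset_map }
    let e : XX m k N ≃o Finset (Fin n) := (Finset.sumEquiv.symm).trans e1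
    refine ⟨F.map e.toEquiv.toEmbedding, transfer l e F hF2 hF3, ?_⟩
    rw [card_map]
    calc F.card ≤ (F0 l k c₀ N ∪ E0 k N).card := card_le_card hF1
      _ ≤ 2 ^ κ * (2 * N + 2) := by
        rw [hκ]
        exact small l k c₀ N
      _ ≤ 2 ^ κ * (2 * n) := Nat.mul_le_mul_left _ (by omega)
      _ = 2 ^ (κ + 1) * n := by ring

end Pool.Agent.Results.MP_2b57cc_co.LinearBound
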